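import Mathlib

set_option autoImplicit false

namespace Pool.Agent.Results.MP_36fb0d_co.No

open Filter ArithmeticFunction

/-- the second exponentiation of ultrafilters -/
noncomputable def E2 (p q : Ultrafilter ℕ+) : Ultrafilter ℕ+ :=
  p.bind fun n => q.map fun m => m ^ (n : ℕ)

theorem ph (p : Ultrafilter ℕ+) (F : ℕ+ → ℕ) {N : ℕ} (h : 0 < N) : ∃ z, ∀ᶠ m in p, F m ≡ z [MOD N] :=
  let ⟨z, _, r⟩ := (Ultrafilter.finite_biUnion_mem_iff (f := p) (s := fun z => {m | F m ≡ z [MOD N]})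
    (Set.finite_lt_nat N)).1 (univ_mem' fun m => Set.mem_biUnion (Nat.mod_lt (F m) h)
      (Nat.mod_modEq _ _).symm)
  ⟨z, r⟩

theorem gl {p : Ultrafilter ℕ+} (e : ∀ A : ℕ+ → Prop, (∀ᶠ x in p, A x) →
    ∀ᶠ (n : ℕ+) in p, ∀ᶠ m in p, A (m ^ (n : ℕ))) (f : ℕ+ → ℕ) (k : ℕ → ℕ)
    (hk : ∀ a, 0 < a → k a < a ∧ ∀ b, b ≡ a [MOD (2 * a * a).factorial] → k b = k a)
    (h0 : ∀ᶠ n in p, 0 < f n)
    (h1 : ∀ᶠ (n : ℕ+) in p, ∀ᶠ m in p, k (f (m ^ (n : ℕ))) = f n + k (f m)) : False := by
  have : ∀ r, ∃ t, ∀ a, 0 < a → (∀ᶠ m in p, r ≡ a + k (f m) [MOD (2 * a * a).factorial]) →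
      t = k a := fun r => by
    by_cases h : ∃ a, 0 < a ∧ ∀ᶠ m in p, r ≡ a + k (f m) [MOD (2 * a * a).factorial]
    swap
    · exact ⟨0, fun a u v => (h ⟨a, u, v⟩).elim⟩
    obtain ⟨a, u, v⟩ := h
    refine ⟨k a, fun b w x => ?_⟩
    obtain ⟨m, v, x⟩ := (v.and x).exists
    have d : ∀ {a b}, a ≤ b → (2 * a * a).factorial ∣ (2 * b * b).factorial :=
      fun l => Nat.factorial_dvd_factorial (by gcongr)
    rcases le_total a b with l | l
    · exact ((hk a u).2 b (((x.of_dvd (d l)).symm.trans v).add_right_cancel' _)).symm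
    exact (hk b w).2 a (((v.of_dvd (d l)).symm.trans x).add_right_cancel' _)
  choose Φ hΦ using this
  let c : ℕ → Bool := wellFounded_lt.fix fun x ih => if h : Φ x < x then !ih _ h else false
  have hc : ∀ x, Φ x < x → c x = !c (Φ x) := fun x h =>
    (wellFounded_lt.fix_eq _ x).trans (dif_pos h)
  obtain ⟨b, hb⟩ : ∃ b, ∀ᶠ x in p, c (k (f x)) = b :=
    (p.em fun x => c (k (f x)) = true).elim (⟨_, ·⟩) fun r => ⟨false, r.mono fun x => by simp⟩
  obtain ⟨n, ⟨n1, n2⟩, n3, n4⟩ := ((h0.and h1).and (hb.and (e _ hb))).exists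
  obtain ⟨z, hz⟩ := ph p (fun m => k (f m)) (2 * f n * f n).factorial_pos
  obtain ⟨m, m1, m2, m3⟩ := (n2.and (n4.and hz)).exists
  have t := hΦ (f n + k (f m)) _ n1 (hz.mono fun x r => (m3.trans r.symm).add_left _)
  have := hc _ (t ▸ (hk _ n1).1.trans_le (Nat.le_add_right _ _))
  rw [t, n3, ← m1, m2] at this
  simp at this

theorem vl {a b q : ℕ} (h : 0 < a) (l : q ≤ 2 * a) (e : b ≡ a [MOD (2 * a * a).factorial]) :
    b.factorization q = a.factorization q := by
  by_cases p : q.Prime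
  swap
  · simp [Nat.factorization_eq_zero_of_not_prime _ p]
  have d : q ^ (a.factorization q + 1) ∣ (2 * a * a).factorial := Nat.dvd_factorial (pow_pos p.pos _)
    (pow_succ' q _ ▸ Nat.mul_le_mul l (Nat.ordProj_le q h.ne'))
  have n := Nat.pow_succ_factorization_not_dvd h.ne' p
  have b0 : b ≠ 0 := fun r => n ((e.dvd_iff d).1 (r ▸ dvd_zero _))
  exact le_antisymm (not_lt.1 fun r => n ((e.dvd_iff d).1 ((p.pow_dvd_iff_le_factorization b0).2 r)))
    ((p.pow_dvd_iff_le_factorization b0).1 ((e.dvd_iff ((pow_dvd_pow _ (Nat.le_succ _)).trans d)).2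
      (Nat.ordProj_dvd a q)))

theorem result (p : Ultrafilter ℕ+) (h : E2 p p = p) : ∃ a, p = pure a := by
  by_contra! np
  have e : ∀ A : ℕ+ → Prop, (∀ᶠ x in p, A x) → ∀ᶠ (n : ℕ+) in p, ∀ᶠ m in p, A (m ^ (n : ℕ)) :=
    fun A r => mem_bind'.1 (show {x | A x} ∈ E2 p p from h.symm ▸ r)
  have o : ∀ᶠ (m : ℕ+) in p, 0 < cardFactors m := (p.em (· = 1)).elim (fun r => (np 1
    (Ultrafilter.eq_pure_of_finite_mem (Set.finite_singleton 1) r |>.elim fun a t => t.1 ▸ t.2)).elim)
      fun r => r.mono fun m t => cardFactors_pos_iff_one_lt.2 (lt_of_le_of_ne m.2 fun v => t (PNat.eq v.symm))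
  have s : ∀ a N : ℕ, a ≠ 0 → ∑ q ∈ Finset.range N, a.factorization q ≤ cardFactors a ∧
      (a < N → ∑ q ∈ Finset.range N, a.factorization q = cardFactors a) := fun a N r => by
    have : ∀ N, a < N → ∑ q ∈ Finset.range N, a.factorization q = cardFactors a := fun N l => by
      rw [cardFactors_eq_sum_factorization, Finsupp.sum_of_support_subset _ (s := Finset.range N)
        (fun q t => Finset.mem_range.2 ((Nat.le_of_mem_primeFactors t).trans_lt l)) _ fun _ _ => rfl]
    exact ⟨this _ (Nat.lt_add_left N a.lt_succ_self) ▸ Finset.sum_le_sum_of_subset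
      (Finset.range_subset_range.2 (Nat.le_add_right _ _)), this N⟩
  have lt : ∀ a : ℕ, a ≠ 0 → cardFactors a < a := fun a r => by
    induction a using Nat.recOnMul with
    | zero => exact (r rfl).elim
    | one => simp
    | prime q t => simpa [t] using t.one_lt
    | mul a b u v =>
      obtain ⟨a0, b0⟩ := mul_ne_zero_iff.1 r
      have := u a0
      have := v b0
      rw [cardFactors_mul a0 b0]
      nlinarith
  rcases p.em fun n => (n : ℕ).factorization 2 = 0 with t | t
  · have w : ∀ j, ∀ᶠ (n : ℕ+) in p, j ≤ (cardFactors n).factorization 2 := fun j => by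
      obtain ⟨z, hz⟩ := ph p (fun m => cardFactors (cardFactors m)) (Nat.two_pow_pos j)
      filter_upwards [e _ hz, o] with n r u
      obtain ⟨m, r, v, w⟩ := (r.and (hz.and o)).exists
      rw [PNat.pow_coe, cardFactors_pow, cardFactors_mul n.ne_zero w.ne'] at r
      exact (Nat.prime_two.pow_dvd_iff_le_factorization u.ne').1 ((Nat.modEq_zero_iff_dvd).1
        (Nat.ModEq.add_right_cancel' _ ((r.trans v.symm).trans (by rw [zero_add]))))
    refine gl e (cardFactors ·) (fun a => ∑ q ∈ Finset.range (a.factorization 2 + 1), a.factorization q)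
      (fun a r => ⟨(s a _ r.ne').1.trans_lt (lt a r.ne'), fun b v => ?_⟩) o (t.mono fun n u =>
        ((w n).and o).mono fun m v => ?_)
    · rw [vl r (by omega) v]
      exact Finset.sum_congr rfl fun q w => vl r (by
        have := Finset.mem_range.1 w
        have := Nat.factorization_lt 2 r.ne'
        omega) v
    simp only [PNat.pow_coe, cardFactors_pow, Nat.factorization_mul n.ne_zero v.2.ne', Finsupp.add_apply,
      u, zero_add, Finset.sum_add_distrib, (s n _ n.ne_zero).2 (Nat.lt_succ_of_le v.1)]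
  exact gl e (fun n => (n : ℕ).factorization 2) (·.factorization 2) (fun a r =>
    ⟨Nat.factorization_lt 2 r.ne', fun b => vl r (by omega)⟩) (t.mono fun n => Nat.pos_of_ne_zero)
      (.of_forall fun n => t.mono fun m u => by
        simp [Nat.factorization_pow, Nat.factorization_mul n.ne_zero u])

end Pool.Agent.Results.MP_36fb0d_co.No
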